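import Mathlib
import Pool.Agent.Q109.Gates

/-!
Every fractionally tree-`α`-fragile graph class has bounded independence degeneracy.
-/

set_option autoImplicit false

namespace Pool.Agent.Results.MP_1b53c2_co.FragileIdeg

open SimpleGraph

/-- `(T, B)` is a tree decomposition of `G`. -/
structure IsTreeDecomposition {V ι : Type} (G : SimpleGraph V) (T : SimpleGraph ι)
    (B : ι → Finset V) : Prop where
  isTree : T.IsTree
  vertex : ∀ v : V, ∃ i, v ∈ B i
  edge : ∀ u v : V, G.Adj u v → ∃ i, u ∈ B i ∧ v ∈ B i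
  connected : ∀ v : V, (T.induce {i | v ∈ B i}).Connected

/-- The tree-independence number: the least `k` such that `G` has a tree decomposition (over a
finite tree) all of whose bags have independence number at most `k`. -/
noncomputable def treeAlpha {V : Type} (G : SimpleGraph V) : ℕ :=
  sInf {k | ∃ (n : ℕ) (T : SimpleGraph (Fin n)) (B : Fin n → Finset V),
    IsTreeDecomposition G T B ∧
      ∀ i, ∀ S : Finset V, S ⊆ B i → G.IsIndepSet (S : Set V) → S.card ≤ k}

open Classical in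
/-- A `β`-general cover: a nonempty multiset of vertex sets such that every vertex lies in at least
`β |𝒞|` of its members. -/
def IsGeneralCover {V : Type} (β : ℝ) (𝒞 : Multiset (Set V)) : Prop :=
  𝒞 ≠ 0 ∧ ∀ v : V, β * (𝒞.card : ℝ) ≤ ((𝒞.filter (fun C => v ∈ C)).card : ℝ)

/-- The class (a predicate on finite graphs) is fractionally tree-`α`-fragile: for some `f`, for
every `r ≥ 1`, every member has a `(1 - 1/r)`-general cover all of whose members induce subgraphs of
tree-independence number at most `f r`. -/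
def FractionallyTreeAlphaFragile (𝒢 : (V : Type) → SimpleGraph V → Prop) : Prop :=
  ∃ f : ℕ → ℕ, ∀ r : ℕ, 1 ≤ r → ∀ (V : Type) (_ : Finite V) (G : SimpleGraph V), 𝒢 V G →
    ∃ 𝒞 : Multiset (Set V), IsGeneralCover (1 - 1 / (r : ℝ)) 𝒞 ∧
      ∀ C ∈ 𝒞, treeAlpha (G.induce C) ≤ f r

/-- The independence degeneracy: the least `k` such that every nonnull induced subgraph `G[S]` of
`G` has a vertex `v` such that every independent set of neighbours of `v` in `G[S]` has at most `k`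
vertices. -/
noncomputable def ideg {V : Type} (G : SimpleGraph V) : ℕ :=
  sInf {k | ∀ S : Set V, S.Nonempty → ∃ v ∈ S, ∀ I : Finset V, (I : Set V) ⊆ S →
    (∀ x ∈ I, G.Adj v x) → G.IsIndepSet (I : Set V) → I.card ≤ k}

/-- The class has bounded independence degeneracy. -/
def BoundedIdeg (𝒢 : (V : Type) → SimpleGraph V → Prop) : Prop :=
  ∃ k : ℕ, ∀ (V : Type) (_ : Finite V) (G : SimpleGraph V), Nonempty V → 𝒢 V G → ideg G ≤ k

lemma treeAlpha_spec {V : Type} [Finite V] (G : SimpleGraph V) {f : ℕ} (h : treeAlpha G ≤ f) :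
    ∃ (n : ℕ) (T : SimpleGraph (Fin n)) (B : Fin n → Finset V), IsTreeDecomposition G T B ∧
      ∀ i, ∀ S : Finset V, S ⊆ B i → G.IsIndepSet (S : Set V) → S.card ≤ f := by
  classical
  have := Fintype.ofFinite V
  have hne : {k | ∃ (n : ℕ) (T : SimpleGraph (Fin n)) (B : Fin n → Finset V),
      IsTreeDecomposition G T B ∧
        ∀ i, ∀ S : Finset V, S ⊆ B i → G.IsIndepSet (S : Set V) → S.card ≤ k}.Nonempty := by
    refine ⟨Fintype.card V, 1, ⊥, fun _ => Finset.univ, ⟨IsTree.of_subsingleton,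
      fun v => ⟨0, Finset.mem_univ _⟩,
      fun u v _ => ⟨0, Finset.mem_univ _, Finset.mem_univ _⟩, ?_⟩,
      fun i S _ hS => Finset.card_le_univ S⟩
    intro v
    have h1 : Subsingleton {i : Fin 1 | v ∈ (Finset.univ : Finset V)} :=
      ⟨fun a b => Subtype.ext (Subsingleton.elim _ _)⟩
    have h2 : Nonempty {i : Fin 1 | v ∈ (Finset.univ : Finset V)} :=
      ⟨⟨0, by simp⟩⟩
    exact Connected.mk (Preconnected.of_subsingleton)
  obtain ⟨n, T, B, h1, h2⟩ := Nat.sInf_mem hne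
  exact ⟨n, T, B, h1, fun i S hS hI => (h2 i S hS hI).trans h⟩

/-- the bound inside one member of the cover -/
lemma member_bound {V : Type} [Finite V] (G : SimpleGraph V) {f : ℕ} (C : Set V)
    (hC : treeAlpha (G.induce C) ≤ f) (S : Set V) (I : Finset V) (hI : G.IsIndepSet (I : Set V))
    (hmax : ∀ J : Finset V, (J : Set V) ⊆ S → G.IsIndepSet (J : Set V) → J.card ≤ I.card)
    (N : V → Finset V) (hN : ∀ v ∈ I, G.IsIndepSet (N v : Set V))
    (hadj : ∀ v ∈ I, ∀ y ∈ N v, G.Adj v y) (hNS : ∀ v ∈ I, (N v : Set V) ⊆ S)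
    [DecidablePred (· ∈ C)] :
    ∑ v ∈ I, ∑ x ∈ N v, (if v ∈ C ∧ x ∈ C then 1 else 0) ≤ (2 * f + f ^ 2) * I.card := by
  classical
  obtain ⟨n, T, B, hTD, hf⟩ := treeAlpha_spec _ hC
  obtain ⟨R⟩ := Q109.Tree.exists_rtd hTD.isTree hTD.edge hTD.connected
  let IC : Finset C := I.subtype (· ∈ C)
  let NC : C → Finset C := fun v => (N v.1).subtype (· ∈ C)
  have hIC : ∀ v : C, v ∈ IC ↔ v.1 ∈ I := fun v => Finset.mem_subtype
  have hNC : ∀ v y : C, y ∈ NC v ↔ y.1 ∈ N v.1 := fun v y => Finset.mem_subtype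
  obtain ⟨U, X, hU, hUI, hXU, hhit⟩ := R.exists_marked _ (IC.biUnion NC) rfl
  have h1 := R.count X (I := IC) (by
      intro a ha b hb hab
      exact hI (Finset.mem_coe.2 ((hIC a).1 (Finset.mem_coe.1 ha)))
        (Finset.mem_coe.2 ((hIC b).1 (Finset.mem_coe.1 hb))) (fun h => hab (Subtype.ext h)))
    hf NC (by
      intro v hv a ha b hb hab
      exact hN v.1 ((hIC v).1 hv) (Finset.mem_coe.2 ((hNC v a).1 (Finset.mem_coe.1 ha)))
        (Finset.mem_coe.2 ((hNC v b).1 (Finset.mem_coe.1 hb))) (fun h => hab (Subtype.ext h)))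
    (by
      intro v hv y hy
      exact hadj v.1 ((hIC v).1 hv) y.1 ((hNC v y).1 hy))
    (by
      intro v hv y hy
      exact hhit y (Finset.mem_biUnion.2 ⟨v, hv, hy⟩))
  have h2 : U.card ≤ I.card := by
    have h3 := hmax (U.map (Function.Embedding.subtype _)) (by
      intro x hx
      rw [Finset.coe_map] at hx
      obtain ⟨u, hu, rfl⟩ := hx
      obtain ⟨v, hv, huv⟩ := Finset.mem_biUnion.1 (hU (Finset.mem_coe.1 hu))
      exact hNS v.1 ((hIC v).1 hv) (Finset.mem_coe.2 ((hNC v u).1 huv))) (by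
      rw [Finset.coe_map]
      rintro _ ⟨a, ha, rfl⟩ _ ⟨b, hb, rfl⟩ hab
      exact hUI ha hb (fun h => hab (by rw [h])))
    rwa [Finset.card_map] at h3
  have h3 : IC.card ≤ I.card := by
    have : IC.card = (I.filter (· ∈ C)).card := Finset.card_subtype _ _
    rw [this]
    exact Finset.card_filter_le _ _
  have h4 : ∑ v ∈ I, ∑ x ∈ N v, (if v ∈ C ∧ x ∈ C then 1 else 0) = ∑ v ∈ IC, (NC v).card := by
    have h5 : ∀ v : C, (NC v).card = ((N v.1).filter (· ∈ C)).card := fun v =>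
      Finset.card_subtype _ _
    simp_rw [h5]
    rw [Finset.sum_subtype_eq_sum_filter (s := I) (p := (· ∈ C))
      (f := fun v => ((N v).filter (· ∈ C)).card), Finset.sum_filter]
    refine Finset.sum_congr rfl (fun v _ => ?_)
    split_ifs with hv
    · rw [Finset.card_filter]
      refine Finset.sum_congr rfl (fun x _ => ?_)
      simp [hv]
    · apply Finset.sum_eq_zero
      intro x _
      simp [hv]
  rw [h4]
  refine h1.trans ?_
  have h5 : 2 * f * IC.card ≤ 2 * f * I.card := Nat.mul_le_mul_left _ h3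
  have h6 : f ^ 2 * X.card ≤ f ^ 2 * I.card := Nat.mul_le_mul_left _ (hXU.trans h2)
  calc _ ≤ 2 * f * I.card + f ^ 2 * I.card := add_le_add h5 h6
    _ = _ := by ring

lemma swap_sum {V : Type} (I : Finset V) (N : V → Finset V) (𝒞 : Multiset (Set V)) :
    open Classical in
    (𝒞.map (fun C => ∑ v ∈ I, ∑ x ∈ N v, (if v ∈ C ∧ x ∈ C then 1 else 0))).sum =
      ∑ v ∈ I, ∑ x ∈ N v, (𝒞.filter (fun C => v ∈ C ∧ x ∈ C)).card := by
  classical
  induction 𝒞 using Multiset.induction_on with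
  | empty => simp
  | cons C 𝒞 ih =>
    rw [Multiset.map_cons, Multiset.sum_cons, ih, ← Finset.sum_add_distrib]
    refine Finset.sum_congr rfl (fun v _ => ?_)
    rw [← Finset.sum_add_distrib]
    refine Finset.sum_congr rfl (fun x _ => ?_)
    rw [Multiset.filter_cons, Multiset.card_add]
    split_ifs <;> simp

theorem ideg_le {V : Type} [Finite V] (G : SimpleGraph V) {f : ℕ} (𝒞 : Multiset (Set V))
    (hcov : IsGeneralCover (1 - 1 / 4) 𝒞) (hα : ∀ C ∈ 𝒞, treeAlpha (G.induce C) ≤ f) :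
    ideg G ≤ 2 * f ^ 2 + 4 * f := by
  classical
  have := Fintype.ofFinite V
  apply Nat.sInf_le
  intro S hS
  by_contra hc
  push Not at hc
  have hc' : ∀ v : V, ∃ J : Finset V, v ∈ S → (J : Set V) ⊆ S ∧ (∀ x ∈ J, G.Adj v x) ∧
      G.IsIndepSet (J : Set V) ∧ 2 * f ^ 2 + 4 * f < J.card := by
    intro v
    by_cases hv : v ∈ S
    · obtain ⟨J, hJ⟩ := hc v hv
      exact ⟨J, fun _ => hJ⟩
    · exact ⟨∅, fun h => absurd h hv⟩
  choose N hN using hc'
  -- a maximum independent subset of `S`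
  obtain ⟨I, hI, hImax⟩ := Finset.exists_max_image
    ((Finset.univ : Finset (Finset V)).filter
      (fun J : Finset V => (J : Set V) ⊆ S ∧ G.IsIndepSet (J : Set V)))
    (fun J : Finset V => J.card) ⟨∅, by simp [SimpleGraph.IsIndepSet]⟩
  obtain ⟨-, hIS, hIind⟩ := Finset.mem_filter.1 hI
  have hmax : ∀ J : Finset V, (J : Set V) ⊆ S → G.IsIndepSet (J : Set V) → J.card ≤ I.card :=
    fun J h1 h2 => hImax J (Finset.mem_filter.2 ⟨Finset.mem_univ _, h1, h2⟩)
  have hIpos : 0 < I.card := by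
    obtain ⟨v, hv⟩ := hS
    have := hmax {v} (by simpa using hv) (by simp [SimpleGraph.IsIndepSet])
    simpa using this
  have hmem : ∀ v ∈ I, v ∈ S := fun v hv => hIS (Finset.mem_coe.2 hv)
  have hup : ∀ C ∈ 𝒞, ∑ v ∈ I, ∑ x ∈ N v, (if v ∈ C ∧ x ∈ C then 1 else 0) ≤
      (2 * f + f ^ 2) * I.card := fun C hC =>
    member_bound G C (hα C hC) S I hIind hmax N (fun v hv => (hN v (hmem v hv)).2.2.1)
      (fun v hv => (hN v (hmem v hv)).2.1) (fun v hv => (hN v (hmem v hv)).1)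
  have hsum := Multiset.sum_le_card_nsmul (𝒞.map (fun C => ∑ v ∈ I, ∑ x ∈ N v,
    (if v ∈ C ∧ x ∈ C then 1 else 0))) ((2 * f + f ^ 2) * I.card) (by
      intro a ha
      obtain ⟨C, hC, rfl⟩ := Multiset.mem_map.1 ha
      exact hup C hC)
  rw [swap_sum, Multiset.card_map, smul_eq_mul] at hsum
  -- lower bound
  have hcount : ∀ v x : V, 𝒞.card ≤ 2 * (𝒞.filter (fun C => v ∈ C ∧ x ∈ C)).card := by
    intro v x
    have h1 := hcov.2 v
    have h2 := hcov.2 x
    have h3 : (𝒞.filter (fun C => v ∈ C)).card + (𝒞.filter (fun C => x ∈ C)).card ≤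
        𝒞.card + (𝒞.filter (fun C => v ∈ C ∧ x ∈ C)).card := by
      clear hsum hup h1 h2 hcov hα
      induction 𝒞 using Multiset.induction_on with
      | empty => simp
      | cons C 𝒞 ih =>
        simp only [Multiset.filter_cons, Multiset.card_add, Multiset.card_cons]
        by_cases hv : v ∈ C <;> by_cases hx : x ∈ C <;> simp [hv, hx] <;> omega
    have h3' : ((𝒞.filter (fun C => v ∈ C)).card : ℝ) + ((𝒞.filter (fun C => x ∈ C)).card : ℝ) ≤
        (𝒞.card : ℝ) + ((𝒞.filter (fun C => v ∈ C ∧ x ∈ C)).card : ℝ) := by exact_mod_cast h3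
    have h4 : (𝒞.card : ℝ) ≤ 2 * ((𝒞.filter (fun C => v ∈ C ∧ x ∈ C)).card : ℝ) := by linarith
    exact_mod_cast h4
  have hlow : I.card * ((2 * f ^ 2 + 4 * f + 1) * 𝒞.card) ≤
      2 * ∑ v ∈ I, ∑ x ∈ N v, (𝒞.filter (fun C => v ∈ C ∧ x ∈ C)).card := by
    rw [Finset.mul_sum, ← smul_eq_mul]
    apply Finset.card_nsmul_le_sum
    intro v hv
    rw [Finset.mul_sum]
    have h1 := Finset.card_nsmul_le_sum (N v)
      (fun x => 2 * (𝒞.filter (fun C => v ∈ C ∧ x ∈ C)).card) 𝒞.card (fun x _ => hcount v x)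
    rw [smul_eq_mul] at h1
    refine le_trans ?_ h1
    apply Nat.mul_le_mul_right
    exact (hN v (hmem v hv)).2.2.2
  have hcard : 0 < 𝒞.card := Multiset.card_pos.2 hcov.1
  have h5 : I.card * ((2 * f ^ 2 + 4 * f + 1) * 𝒞.card) ≤
      2 * (𝒞.card * ((2 * f + f ^ 2) * I.card)) := hlow.trans (Nat.mul_le_mul_left _ hsum)
  have h6 : 2 * (𝒞.card * ((2 * f + f ^ 2) * I.card)) =
      I.card * ((2 * f ^ 2 + 4 * f) * 𝒞.card) := by ring
  rw [h6] at h5
  have h7 := Nat.le_of_mul_le_mul_left h5 hIpos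
  have h8 := Nat.le_of_mul_le_mul_right h7 hcard
  omega

/-- Every fractionally tree-`α`-fragile graph class has bounded independence degeneracy (the proof
gives the bound `2 f(4)² + 4 f(4)`). -/
theorem result (𝒢 : (V : Type) → SimpleGraph V → Prop) (h : FractionallyTreeAlphaFragile 𝒢) :
    BoundedIdeg 𝒢 := by
  obtain ⟨f, hf⟩ := h
  refine ⟨2 * (f 4) ^ 2 + 4 * f 4, fun V hV G _ hG => ?_⟩
  obtain ⟨𝒞, h1, h2⟩ := hf 4 (by norm_num) V hV G hG
  exact ideg_le G 𝒞 (by exact_mod_cast h1) h2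

end Pool.Agent.Results.MP_1b53c2_co.FragileIdeg
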